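import Mathlib

namespace Pool.Agent.Results.MP_49314d_al.NoUniversal

/-- A group is right-orderable if it has a total order invariant under right multiplication. -/
def RightOrderable (G : Type*) [Group G] : Prop :=
  ∃ lo : LinearOrder G, ∀ x y z : G, lo.le x y → lo.le (x * z) (y * z)

/-- The ordered set `ℤ × ℚ` with the lexicographic order. -/
abbrev Om : Type := ℤ ×ₗ ℚ

/-- An automorphism of `Om` acting on every fibre. -/
def fiber (f : ℤ → (ℚ ≃o ℚ)) : Om ≃o Om where
  toFun p := toLex ((ofLex p).1, f (ofLex p).1 (ofLex p).2)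
  invFun p := toLex ((ofLex p).1, (f (ofLex p).1).symm (ofLex p).2)
  left_inv p := by
    apply ofLex.injective
    simp
  right_inv p := by
    apply ofLex.injective
    simp
  map_rel_iff' := by
    intro p q
    change toLex ((ofLex p).1, f (ofLex p).1 (ofLex p).2) ≤
      toLex ((ofLex q).1, f (ofLex q).1 (ofLex q).2) ↔ p ≤ q
    rw [Prod.Lex.le_iff, Prod.Lex.le_iff]
    simp only [ofLex_toLex]
    constructor
    · rintro (h | ⟨h1, h2⟩)
      · exact Or.inl h
      · refine Or.inr ⟨h1, ?_⟩
        rw [h1] at h2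
        exact (f _).le_iff_le.mp h2
    · rintro (h | ⟨h1, h2⟩)
      · exact Or.inl h
      · refine Or.inr ⟨h1, ?_⟩
        rw [h1]
        exact (f _).le_iff_le.mpr h2

/-- The shift of `Om`. -/
def tr : Om ≃o Om where
  toFun p := toLex ((ofLex p).1 + 1, (ofLex p).2)
  invFun p := toLex ((ofLex p).1 - 1, (ofLex p).2)
  left_inv p := by
    apply ofLex.injective
    simp
  right_inv p := by
    apply ofLex.injective
    simp
  map_rel_iff' := by
    intro p q
    change toLex ((ofLex p).1 + 1, (ofLex p).2) ≤ toLex ((ofLex q).1 + 1, (ofLex q).2) ↔ p ≤ q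
    rw [Prod.Lex.le_iff, Prod.Lex.le_iff]
    simp

lemma tr_pow (k : ℕ) (n : ℤ) (q : ℚ) :
    (tr ^ k : Om ≃o Om) (toLex (n, q)) = toLex (n + k, q) := by
  induction k generalizing n with
  | zero => simp
  | succ k ih =>
    rw [pow_succ, RelIso.mul_apply]
    have h : (tr : Om ≃o Om) (toLex (n, q)) = toLex (n + 1, q) := rfl
    rw [h, ih]
    congr 2
    push_cast
    ring

/-- The automorphisms `q ↦ q + 1` and `q ↦ 2 q` of `ℚ`. -/
def plusOne : ℚ ≃o ℚ := OrderIso.addRight 1

/-- The automorphism `q ↦ q * 2`. -/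
def double : ℚ ≃o ℚ := OrderIso.mulRight₀ 2 (by norm_num)

open Classical in
/-- The family of automorphisms of the fibres: `q + 1` at `0`, `2 q` at `k + 1` for `k ∈ S`, and
the identity elsewhere. -/
noncomputable def fam (S : Set ℕ) (n : ℤ) : ℚ ≃o ℚ :=
  if n = 0 then plusOne else if ∃ k ∈ S, n = (k : ℤ) + 1 then double else 1

/-- The first generator. -/
noncomputable def a (S : Set ℕ) : Om ≃o Om := fiber (fam S)

lemma conj_apply (S : Set ℕ) (k : ℕ) (n : ℤ) (q : ℚ) :
    ((tr ^ k)⁻¹ * a S * tr ^ k : Om ≃o Om) (toLex (n, q)) = toLex (n, fam S (n + k) q) := by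
  rw [RelIso.mul_apply, RelIso.mul_apply, tr_pow]
  have h1 : (a S : Om ≃o Om) (toLex (n + k, q)) = toLex (n + k, fam S (n + k) q) := rfl
  rw [h1, ← tr_pow, RelIso.inv_apply_self]

lemma fam_zero (S : Set ℕ) : fam S 0 = plusOne := by simp [fam]

lemma fam_succ {S : Set ℕ} {k : ℕ} (h : k ∈ S) : fam S ((k : ℤ) + 1) = double := by
  unfold fam
  rw [if_neg (by omega), if_pos ⟨k, h, rfl⟩]

lemma fam_else {S : Set ℕ} {n : ℤ} (h0 : n ≠ 0) (h : ¬ ∃ k ∈ S, n = (k : ℤ) + 1) :
    fam S n = 1 := by
  unfold fam
  rw [if_neg h0, if_neg h]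

lemma commute_iff (S : Set ℕ) (k : ℕ) :
    Commute (a S) ((tr ^ (k + 1))⁻¹ * a S * tr ^ (k + 1)) ↔ k ∉ S := by
  obtain ⟨c, hc⟩ : ∃ c, c = (tr ^ (k + 1))⁻¹ * a S * tr ^ (k + 1) := ⟨_, rfl⟩
  have hca : ∀ (n : ℤ) (q : ℚ), c (toLex (n, q)) = toLex (n, fam S (n + ((k + 1 : ℕ) : ℤ)) q) := by
    intro n q
    rw [hc]
    exact conj_apply S (k + 1) n q
  have haa : ∀ (n : ℤ) (q : ℚ), (a S : Om ≃o Om) (toLex (n, q)) = toLex (n, fam S n q) :=
    fun n q => rfl
  rw [← hc]
  constructor
  · intro h hk
    have h1 : (a S * c) (toLex (0, 0)) = (c * a S) (toLex (0, 0)) := by rw [h.eq]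
    rw [RelIso.mul_apply, RelIso.mul_apply, hca, haa, haa, hca] at h1
    have h3 : fam S (0 + ((k + 1 : ℕ) : ℤ)) = double := by
      rw [zero_add]
      push_cast
      exact fam_succ hk
    rw [h3, fam_zero] at h1
    have h4 := congrArg (fun p : Om => (ofLex p).2) h1
    simp only [ofLex_toLex] at h4
    change (0 : ℚ) * 2 + 1 = (0 + 1) * 2 at h4
    norm_num at h4
  · intro hk
    apply RelIso.ext
    intro p
    obtain ⟨⟨n, q⟩, rfl⟩ := toLex.surjective p
    rw [RelIso.mul_apply, RelIso.mul_apply, hca, haa, haa, hca]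
    congr 2
    -- the two automorphisms of the fibre commute
    have h5 : fam S n = 1 ∨ fam S (n + ((k + 1 : ℕ) : ℤ)) = 1 ∨
        fam S n = fam S (n + ((k + 1 : ℕ) : ℤ)) := by
      by_cases h0 : n = 0
      · right; left
        subst h0
        apply fam_else
        · push_cast; omega
        · rintro ⟨l, hl, he⟩
          push_cast at he
          have : l = k := by omega
          exact hk (this ▸ hl)
      · by_cases hS : ∃ l ∈ S, n = (l : ℤ) + 1
        · obtain ⟨l, hl, rfl⟩ := hS
          by_cases hS2 : ∃ m ∈ S, (l : ℤ) + 1 + ((k + 1 : ℕ) : ℤ) = (m : ℤ) + 1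
          · right; right
            obtain ⟨m, hm, he⟩ := hS2
            rw [he, fam_succ hl, fam_succ hm]
          · right; left
            apply fam_else
            · push_cast; omega
            · exact hS2
        · left
          exact fam_else h0 hS
    rcases h5 with h | h | h
    · rw [h]; rfl
    · rw [h]; rfl
    · rw [h]

/-- The automorphism group of `Om` is right-orderable. -/
lemma rightOrderable_aut : RightOrderable (Om ≃o Om) := by
  have hcount : Countable Om := (ofLex : Om ≃ ℤ × ℚ).injective.countable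
  have hne : Nonempty Om := ⟨toLex (0, 0)⟩
  obtain ⟨e, he⟩ := exists_surjective_nat Om
  let j : (Om ≃o Om) → Lex (ℕ → Om) := fun f => toLex (fun n => (f⁻¹ : Om ≃o Om) (e n))
  have hj : Function.Injective j := by
    intro f g hfg
    apply inv_injective
    apply RelIso.ext
    intro x
    obtain ⟨n, rfl⟩ := he x
    exact congrFun (toLex.injective hfg) n
  refine ⟨LinearOrder.lift' j hj, ?_⟩
  intro x y z hxy
  change j (x * z) ≤ j (y * z)
  have hxy' : j x ≤ j y := hxy
  rcases hxy'.lt_or_eq with hlt | heq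
  · apply le_of_lt
    obtain ⟨i, hi1, hi2⟩ := hlt
    refine ⟨i, fun k hk => ?_, ?_⟩
    · have h1 : (x⁻¹ : Om ≃o Om) (e k) = (y⁻¹ : Om ≃o Om) (e k) := hi1 k hk
      change ((x * z)⁻¹ : Om ≃o Om) (e k) = ((y * z)⁻¹ : Om ≃o Om) (e k)
      rw [mul_inv_rev, mul_inv_rev, RelIso.mul_apply, RelIso.mul_apply, h1]
    · have h1 : (x⁻¹ : Om ≃o Om) (e i) < (y⁻¹ : Om ≃o Om) (e i) := hi2
      change ((x * z)⁻¹ : Om ≃o Om) (e i) < ((y * z)⁻¹ : Om ≃o Om) (e i)
      rw [mul_inv_rev, mul_inv_rev, RelIso.mul_apply, RelIso.mul_apply]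
      exact (z⁻¹ : Om ≃o Om).lt_iff_lt.mpr h1
  · rw [hj heq]

/-- The two-generator group. -/
noncomputable def H (S : Set ℕ) : Subgroup (Om ≃o Om) :=
  Subgroup.closure {a S, tr}

lemma rightOrderable_H (S : Set ℕ) : RightOrderable (H S) := by
  obtain ⟨lo, h⟩ := rightOrderable_aut
  refine ⟨LinearOrder.lift' (fun x : H S => (x : Om ≃o Om)) Subtype.val_injective, ?_⟩
  intro x y z hxy
  exact h x.1 y.1 z.1 hxy

lemma countable_H (S : Set ℕ) : Countable (H S) := by
  have h1 : H S = (FreeGroup.lift (fun b : Bool => if b then a S else tr)).range := by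
    rw [FreeGroup.range_lift_eq_closure]
    unfold H
    congr 1
    ext x
    simp only [Set.mem_insert_iff, Set.mem_singleton_iff, Set.mem_range, Bool.exists_bool]
    simp only [Bool.false_eq_true, if_false, if_true]
    constructor
    · rintro (rfl | rfl)
      · exact Or.inr rfl
      · exact Or.inl rfl
    · rintro (rfl | rfl)
      · exact Or.inr rfl
      · exact Or.inl rfl
  have h2 : Countable (FreeGroup Bool) := by
    have : Function.Surjective (FreeGroup.mk : List (Bool × Bool) → FreeGroup Bool) :=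
      Quot.mk_surjective
    exact this.countable
  rw [h1]
  exact (FreeGroup.lift _).rangeRestrict_surjective.countable

/-- **Main result.** (1) There is no universal countable right-orderable group. (2) More strongly,
for every countable group `U` (right-orderable or not) there is a right-orderable group `H`
generated by two elements that does not embed in `U`. -/
theorem result :
    (¬ ∃ (U : Type) (_ : Group U), Countable U ∧ RightOrderable U ∧
      ∀ (H : Type) [Group H], Countable H → RightOrderable H →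
        ∃ f : H →* U, Function.Injective f) ∧
    ∀ (U : Type) [Group U], Countable U → ∃ (H : Type) (_ : Group H), RightOrderable H ∧
      (∃ x y : H, Subgroup.closure {x, y} = ⊤) ∧ ¬ ∃ f : H →* U, Function.Injective f := by
  have main : ∀ (U : Type) [Group U], Countable U →
      ∃ S : Set ℕ, ¬ ∃ f : H S →* U, Function.Injective f := by
    intro U _ hU
    by_contra hcon
    push Not at hcon
    choose f hf using hcon
    let g₁ : ∀ S, H S := fun S => ⟨a S, Subgroup.subset_closure (Or.inl rfl)⟩
    let g₂ : ∀ S, H S := fun S => ⟨tr, Subgroup.subset_closure (Or.inr rfl)⟩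
    have key : ∀ (S : Set ℕ) (k : ℕ), Commute (f S (g₁ S))
        ((f S (g₂ S) ^ (k + 1))⁻¹ * f S (g₁ S) * f S (g₂ S) ^ (k + 1)) ↔ k ∉ S := by
      intro S k
      have hmap : ∀ x y : H S, Commute (f S x) (f S y) ↔ Commute x y := by
        intro x y
        constructor
        · intro h
          apply hf S
          rw [map_mul, map_mul]
          exact h
        · intro h
          exact h.map (f S)
      rw [← commute_iff S k, ← map_pow, ← map_inv, ← map_mul, ← map_mul, hmap]
      constructor
      · intro h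
        exact congrArg Subtype.val h
      · intro h
        exact Subtype.ext h
    let F : Set ℕ → U × U := fun S => (f S (g₁ S), f S (g₂ S))
    have hF : Function.Injective F := by
      intro S S' h
      have e1 : f S (g₁ S) = f S' (g₁ S') := congrArg Prod.fst h
      have e2 : f S (g₂ S) = f S' (g₂ S') := congrArg Prod.snd h
      ext k
      have h1 := key S k
      rw [e1, e2, key S' k] at h1
      exact (not_iff_not.mp h1).symm
    obtain ⟨i, hi⟩ := exists_injective_nat (U × U)
    exact Function.cantor_injective (i ∘ F) (hi.comp hF)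
  constructor
  · rintro ⟨U, _, hU, _, h⟩
    obtain ⟨S, hS⟩ := main U hU
    exact hS (h (H S) (countable_H S) (rightOrderable_H S))
  · intro U _ hU
    obtain ⟨S, hS⟩ := main U hU
    refine ⟨H S, inferInstance, rightOrderable_H S,
      ⟨⟨a S, Subgroup.subset_closure (Or.inl rfl)⟩, ⟨tr, Subgroup.subset_closure (Or.inr rfl)⟩, ?_⟩,
      hS⟩
    rw [eq_top_iff]
    rintro ⟨x, hx⟩ _
    have h1 : ∀ y ∈ Subgroup.closure {a S, tr}, ∀ hy : y ∈ H S, (⟨y, hy⟩ : H S) ∈
        Subgroup.closure {(⟨a S, Subgroup.subset_closure (Or.inl rfl)⟩ : H S),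
          ⟨tr, Subgroup.subset_closure (Or.inr rfl)⟩} := by
      intro y hy
      induction hy using Subgroup.closure_induction with
      | mem y hy =>
        rcases hy with rfl | rfl
        · intro _; exact Subgroup.subset_closure (Or.inl rfl)
        · intro _; exact Subgroup.subset_closure (Or.inr rfl)
      | one => intro _; exact Subgroup.one_mem _
      | mul y z hy hz ihy ihz => intro _; exact Subgroup.mul_mem _ (ihy hy) (ihz hz)
      | inv y hy ihy => intro _; exact Subgroup.inv_mem _ (ihy hy)
    exact h1 x hx hx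

end Pool.Agent.Results.MP_49314d_al.NoUniversal
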